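import Pool.Agent.S19231
import Pool.Agent.H92.Rt3

set_option autoImplicit false
open MeasureTheory ProbabilityTheory Pool.Agent.H92.Rt3

namespace Pool.Agent.Results.MP_2b43a6_pr.RecurrentT3

universe u

/-- The frog model on the rooted ternary tree, driven by arbitrary independent simple random walks
`X v` (one for every vertex `v`), is almost surely recurrent: at infinitely many times an awake frog
is at the root. Such walks exist. -/
theorem result :
    (∀ (Ω : Type u) [MeasurableSpace Ω] (P : Measure Ω) [IsProbabilityMeasure P]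
      (X : V → ℕ → Ω → V), IndepWalks P X →
        ∀ᵐ ω ∂P, Set.Infinite {t : ℕ | RootVisited (fun v k => X v k ω) t}) ∧
    ∃ (Ω : Type) (_ : MeasurableSpace Ω) (P : Measure Ω) (X : V → ℕ → Ω → V),
      IsProbabilityMeasure P ∧ IndepWalks P X := by
  refine ⟨?_, _, _, P0, X0, inferInstance, indepWalks_P0⟩
  intro Ω _ P _ X hX
  refine recurrent_of P X hX ?_
  have h := Pool.Agent.S19231.result (V → ℕ → Fin 3 × Fin 4) P0 (fun v k a => a v k)
    (fun v k => (measurable_pi_apply k).comp (measurable_pi_apply (X := fun _ : V => ℕ → Fin 3 × Fin 4) v))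
    P0_indep P0_single (fun v k a => walk v (a v) k) (fun _ _ => rfl) (fun _ _ _ => rfl)
  exact h

end Pool.Agent.Results.MP_2b43a6_pr.RecurrentT3
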