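import Mathlib
import Pool.Agent.H38.Frog.PotOfCert
import Pool.Agent.H27.Frog.CertOfFin
import Pool.Agent.H92.Frog.FinD2

/-!
# The frog model on the 4-ary tree is almost surely transient

One frog per vertex, simple random walks. `ξ v k` is the randomness of the `k`-th step of the frog
that starts at `v`; `S v k` is its position after `k` steps (vertices are finite lists of children,
the root is `[]`). The set of woken frogs is the smallest set that contains the root and all the
vertices visited by its members.
-/

set_option autoImplicit false
open MeasureTheory ProbabilityTheory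

namespace Pool.Agent.Results.MP_2b43a6_pr.TransientT4

/-- In the frog model on the rooted 4-ary tree (one frog per vertex, root frog awake, simple random
walks, woken on first visit), almost surely the root is visited only finitely many times by woken
frogs. -/
theorem result :
    ∀ (Ω : Type) [MeasurableSpace Ω] (P : Measure Ω) [IsProbabilityMeasure P]
      (ξ : List (Fin 4) → ℕ → Ω → Fin 4 × Fin 5),
      (∀ v k, Measurable (ξ v k)) →
      iIndepFun (fun p : List (Fin 4) × ℕ => ξ p.1 p.2) P →
      (∀ v k (c : Fin 4 × Fin 5), P (ξ v k ⁻¹' {c}) = 1 / 20) →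
      ∀ (S : List (Fin 4) → ℕ → Ω → List (Fin 4)),
      (∀ v ω, S v 0 ω = v) →
      (∀ v k ω, S v (k + 1) ω =
        if S v k ω = [] then [(ξ v k ω).1]
        else if (ξ v k ω).2 = 0 then (S v k ω).tail
        else (ξ v k ω).1 :: S v k ω) →
      ∀ᵐ ω ∂P, Set.Finite
        {p : List (Fin 4) × ℕ |
          (∀ A : Set (List (Fin 4)), [] ∈ A →
              (∀ v ∈ A, ∀ k, S v k ω ∈ A) → p.1 ∈ A) ∧
          S p.1 p.2 ω = []} :=
  Pool.Agent.H38.Frog.transient_of_cert
    (Pool.Agent.H27.Frog.certOfFin Pool.Agent.H92.Frog.K.finDat)

end Pool.Agent.Results.MP_2b43a6_pr.TransientT4
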